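import Pool.Agent.Q194.NH.Alg

/-!
# Weakly numerically hypercyclic operators on `ℂⁿ`

Every weakly numerically hypercyclic operator on `ℂⁿ` satisfies one of the four spectral conditions
(C1)-(C4): Question Q1 of the problem, answered in the affirmative for every `n`.
-/

namespace Pool.Agent.Results.MP_fe3f7a_an.SpectralNecessity

universe u v

/-- `T` is numerically hypercyclic: for some `x ∈ X` and `f ∈ X*` with `‖x‖ = ‖f‖ = f(x) = 1` the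
numbers `f(T^k x)`, `k ∈ ℤ₊`, are dense in `ℂ`. -/
def NumericallyHypercyclic {X : Type u} [NormedAddCommGroup X] [NormedSpace ℂ X]
    (T : X →L[ℂ] X) : Prop :=
  ∃ (x : X) (f : X →L[ℂ] ℂ), ‖x‖ = 1 ∧ ‖f‖ = 1 ∧ f x = 1 ∧
    Dense (Set.range fun k : ℕ => f ((T ^ k) x))

/-- Two complex numbers (of modulus one) are independent: `z ^ m * w ^ n ≠ 1` for all
`(m, n) ∈ ℤ² \ {0}`. -/
def Independent (z w : ℂ) : Prop := ∀ m n : ℤ, (m, n) ≠ (0, 0) → z ^ m * w ^ n ≠ 1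

/-- `z` has infinite order. -/
def InfiniteOrder (z : ℂ) : Prop := ∀ m : ℕ, 0 < m → z ^ m ≠ 1

section

variable {X : Type v} [NormedAddCommGroup X] [NormedSpace ℂ X]

/-- `T` is weakly numerically hypercyclic: `T = J⁻¹ S J` for some Banach space `Y`, some linear
topological isomorphism `J : X → Y` and some numerically hypercyclic `S ∈ L(Y)`. -/
def WeaklyNumericallyHypercyclic (T : X →L[ℂ] X) : Prop :=
  ∃ (Y : Type u) (_ : NormedAddCommGroup Y) (_ : NormedSpace ℂ Y) (_ : CompleteSpace Y)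
    (J : X ≃L[ℂ] Y) (S : Y →L[ℂ] Y), NumericallyHypercyclic S ∧ ∀ x, T x = J.symm (S (J x))

/-- `l` is an eigenvalue of `T`. -/
def Eigenvalue (T : X →L[ℂ] X) (l : ℂ) : Prop := ∃ x : X, x ≠ 0 ∧ T x = l • x

/-- `ker (T - l)² ≠ ker (T - l)`. -/
def KerNe (T : X →L[ℂ] X) (l : ℂ) : Prop :=
  {x : X | ((T - l • (1 : X →L[ℂ] X)) ^ 2) x = 0} ≠ {x : X | (T - l • (1 : X →L[ℂ] X)) x = 0}

/-- Condition (C1). -/
def C1 (T : X →L[ℂ] X) : Prop :=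
  ∃ l₁ l₂ : ℂ, Eigenvalue T l₁ ∧ Eigenvalue T l₂ ∧ ‖l₁‖ = ‖l₂‖ ∧ 1 < ‖l₁‖ ∧
    Independent (l₁ / ‖l₁‖) (l₂ / ‖l₂‖)

/-- Condition (C2). -/
def C2 (T : X →L[ℂ] X) : Prop :=
  ∃ l₁ l₂ : ℂ, ‖l₁‖ = 1 ∧ ‖l₂‖ = 1 ∧ Independent l₁ l₂ ∧ KerNe T l₁ ∧ KerNe T l₂

/-- Condition (C3). -/
def C3 (T : X →L[ℂ] X) : Prop :=
  ∃ l₁ l₂ l₃ : ℂ, Eigenvalue T l₁ ∧ Eigenvalue T l₂ ∧ Eigenvalue T l₃ ∧ ‖l₁‖ = ‖l₂‖ ∧
    ‖l₃‖ < ‖l₁‖ ∧ 1 < ‖l₃‖ ∧ InfiniteOrder (l₁ / l₂) ∧ Independent (l₁ / ‖l₁‖) (l₃ / ‖l₃‖)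

/-- Condition (C4). -/
def C4 (T : X →L[ℂ] X) : Prop :=
  ∃ l₁ l₂ l₃ : ℂ, Eigenvalue T l₁ ∧ Eigenvalue T l₂ ∧ ‖l₃‖ = 1 ∧ KerNe T l₃ ∧ ‖l₁‖ = ‖l₂‖ ∧
    1 < ‖l₁‖ ∧ InfiniteOrder (l₁ / l₂) ∧ Independent (l₁ / ‖l₁‖) l₃

end

/-- The space `ℂⁿ`. -/
abbrev Cn (n : ℕ) : Type := EuclideanSpace ℂ (Fin n)

lemma eigenvalue_of {n : ℕ} {T : Cn n →L[ℂ] Cn n} {l : ℂ}
    (h : Module.End.HasEigenvalue (T : Module.End ℂ (Cn n)) l) : Eigenvalue T l := by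
  obtain ⟨x, hx⟩ := h.exists_hasEigenvector
  exact ⟨x, hx.2, hx.apply_eq_smul⟩

lemma kerNe_of {n : ℕ} {T : Cn n →L[ℂ] Cn n} {l : ℂ}
    (h : Q194.NH.Defective (T : Module.End ℂ (Cn n)) l) : KerNe T l := by
  intro heq
  refine h ?_
  ext x
  have h1 : ((T - l • (1 : Cn n →L[ℂ] Cn n)) ^ 2) x = 0 ↔
      (T - l • (1 : Cn n →L[ℂ] Cn n)) x = 0 := by
    have := Set.ext_iff.1 heq x
    exact this
  rw [LinearMap.mem_ker, LinearMap.mem_ker]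
  exact h1

lemma independent_of {z w : ℂ} (h : Q194.NH.Indep z w) : Independent z w := by
  intro m n hmn h1
  obtain ⟨rfl, rfl⟩ := h m n h1
  exact hmn rfl

/-- **Main theorem.** Every weakly numerically hypercyclic operator on `ℂⁿ` satisfies at least one
of the conditions (C1)-(C4). -/
theorem result (n : ℕ) (T : Cn n →L[ℂ] Cn n) (hT : WeaklyNumericallyHypercyclic.{u} T) :
    C1 T ∨ C2 T ∨ C3 T ∨ C4 T := by
  obtain ⟨Y, _, _, _, J, S, ⟨y, g, _, _, _, hdense⟩, hconj⟩ := hT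
  have hpow : ∀ (k : ℕ) (x : Cn n), J (((T : Module.End ℂ (Cn n)) ^ k) x) = (S ^ k) (J x) := by
    intro k
    induction k with
    | zero => intro x; simp
    | succ k ih =>
      intro x
      have h2 : (T : Module.End ℂ (Cn n)) x = J.symm (S (J x)) := hconj x
      rw [pow_succ, Module.End.mul_apply, ih, h2, ContinuousLinearEquiv.apply_symm_apply, pow_succ]
      rfl
  have hd : Dense (Set.range fun k : ℕ => ((g.toLinearMap).comp J.toLinearEquiv.toLinearMap)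
      (((T : Module.End ℂ (Cn n)) ^ k) (J.symm y))) := by
    convert hdense using 2
    funext k
    show g (J (((T : Module.End ℂ (Cn n)) ^ k) (J.symm y))) = _
    rw [hpow, ContinuousLinearEquiv.apply_symm_apply]
  rcases Q194.NH.alg (T : Module.End ℂ (Cn n)) (J.symm y) _ hd with h | h | h | h
  · obtain ⟨μ, ν, h1, h2, h3, h4, h5⟩ := h
    exact Or.inl ⟨μ, ν, eigenvalue_of h1, eigenvalue_of h2, h3, h4, independent_of h5⟩
  · obtain ⟨μ, ν, h1, h2, h3, h4, h5⟩ := h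
    exact Or.inr (Or.inl ⟨μ, ν, h1, h2, independent_of h3, kerNe_of h4, kerNe_of h5⟩)
  · obtain ⟨μ, ν, κ, h1, h2, h3, h4, h5, h6, h7, h8⟩ := h
    exact Or.inr (Or.inr (Or.inl ⟨μ, ν, κ, eigenvalue_of h1, eigenvalue_of h2, eigenvalue_of h3,
      h4, h5, h6, h7, independent_of h8⟩))
  · obtain ⟨μ, ν, κ, h1, h2, h3, h4, h5, h6, h7, h8⟩ := h
    exact Or.inr (Or.inr (Or.inr ⟨μ, ν, κ, eigenvalue_of h1, eigenvalue_of h2, h3, kerNe_of h4,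
      h5, h6, h7, independent_of h8⟩))

end Pool.Agent.Results.MP_fe3f7a_an.SpectralNecessity
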